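import Mathlib

/-!
# Weakly contractive set-valued maps have fixed points

`X` is a nonempty complete metric space, `T` assigns to each point a nonempty closed bounded set, and
`H(T x, T y) ≤ d(x, y) - θ(d(x, y))` for a function `θ` of the class `𝒜`. We show that `T` has a fixed
point, with no compactness assumption on the values. The point is that a nondecreasing subadditive
function `γ` which vanishes only at `0` satisfies `γ t ≥ (γ 1 / 2) min t 1`; hence
`θ t ≥ k min t 1` for some `k > 0`, and on each bounded range of distances `T` is a contraction up to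
an error which can be absorbed.
-/

set_option autoImplicit false

namespace Pool.Agent.Results.MP_e93574_an.FixedPoint

open scoped NNReal

/-- The class `Γ`: continuous, nondecreasing, subadditive functions on `[0, ∞)` with values in
`[0, ∞)` which vanish exactly at `0`. -/
def ClassGamma (γ : ℝ≥0 → ℝ≥0) : Prop :=
  Continuous γ ∧ Monotone γ ∧ (∀ s t, γ (s + t) ≤ γ s + γ t) ∧ ∀ t, γ t = 0 ↔ t = 0

/-- The class `𝒜`: the functions `θ` on `[0, ∞)` for which there are `ε₀ > 0` and `γ` in `Γ` such that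
`θ t ≤ ε₀` implies `θ t ≥ γ t`. -/
def ClassA (θ : ℝ≥0 → ℝ≥0) : Prop :=
  ∃ ε₀ : ℝ≥0, 0 < ε₀ ∧ ∃ γ : ℝ≥0 → ℝ≥0, ClassGamma γ ∧ ∀ t, θ t ≤ ε₀ → γ t ≤ θ t

theorem gamma_nsmul {γ : ℝ≥0 → ℝ≥0} (h : ∀ s t, γ (s + t) ≤ γ s + γ t) (h0 : γ 0 = 0) (t : ℝ≥0)
    (n : ℕ) : γ (n * t) ≤ n * γ t := by
  induction n with
  | zero => simp [h0]
  | succ n ih =>
    have : ((n + 1 : ℕ) : ℝ≥0) * t = n * t + t := by push_cast; ring
    rw [this]
    calc γ (n * t + t) ≤ γ (n * t) + γ t := h _ _
      _ ≤ n * γ t + γ t := by gcongr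
      _ = ((n + 1 : ℕ) : ℝ≥0) * γ t := by push_cast; ring

theorem gamma_lower {γ : ℝ≥0 → ℝ≥0} (h : ClassGamma γ) (t : ℝ≥0) :
    ((γ 1 : ℝ≥0) : ℝ) / 2 * min (t : ℝ) 1 ≤ γ t := by
  obtain ⟨-, hm, hs, hz⟩ := h
  have h0 : γ 0 = 0 := (hz 0).2 rfl
  rcases eq_or_lt_of_le (show (0 : ℝ≥0) ≤ t from bot_le) with ht | ht
  · rw [← ht]; simp
  rcases le_or_gt 1 t with h1 | h1
  · have : (γ 1 : ℝ) ≤ γ t := by exact_mod_cast hm h1
    rw [min_eq_right (by exact_mod_cast h1)]
    have : (0 : ℝ) ≤ γ 1 := (γ 1).2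
    linarith
  · have ht' : (0 : ℝ) < t := by exact_mod_cast ht
    have h1' : (t : ℝ) < 1 := by exact_mod_cast h1
    set n := ⌈(1 : ℝ) / t⌉₊ with hn
    have hn1 : (1 : ℝ) / t ≤ n := Nat.le_ceil _
    have hn2 : (n : ℝ) < 1 / t + 1 := Nat.ceil_lt_add_one (by positivity)
    have hnt : (1 : ℝ≥0) ≤ n * t := by
      have : (1 : ℝ) ≤ n * t := by
        rw [div_le_iff₀ ht'] at hn1; exact hn1
      exact_mod_cast this
    have key : (γ 1 : ℝ) ≤ n * γ t := by
      exact_mod_cast (hm hnt).trans (gamma_nsmul hs h0 t n)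
    rw [min_eq_left h1'.le]
    have hg : (0 : ℝ) ≤ γ t := (γ t).2
    have hn3 : (n : ℝ) * t ≤ 2 := by
      have : (n : ℝ) * t < (1 / t + 1) * t := by gcongr
      have h2 : (1 / (t : ℝ) + 1) * t = 1 + t := by field_simp
      linarith
    calc (γ 1 : ℝ) / 2 * t ≤ (n * γ t) / 2 * t := by gcongr
      _ = (n * t) / 2 * γ t := by ring
      _ ≤ 2 / 2 * γ t := by gcongr
      _ = γ t := by ring

theorem theta_lower {θ : ℝ≥0 → ℝ≥0} (h : ClassA θ) :
    ∃ k : ℝ, 0 < k ∧ k ≤ 1 ∧ ∀ t : ℝ≥0, k * min (t : ℝ) 1 ≤ θ t := by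
  obtain ⟨ε, hε, γ, hγ, hθ⟩ := h
  have hγ1 : (0 : ℝ) < γ 1 := by
    have : γ 1 ≠ 0 := fun h => one_ne_zero ((hγ.2.2.2 1).1 h)
    exact_mod_cast pos_iff_ne_zero.2 this
  have hε' : (0 : ℝ) < ε := by exact_mod_cast hε
  refine ⟨min (min (ε : ℝ) ((γ 1 : ℝ) / 2)) 1, by positivity, min_le_right _ _, fun t => ?_⟩
  have hm : (0 : ℝ) ≤ min (t : ℝ) 1 := le_min t.2 zero_le_one
  have hm1 : min (t : ℝ) 1 ≤ 1 := min_le_right _ _
  rcases le_or_gt (θ t) ε with h1 | h1
  · have h2 : (γ t : ℝ) ≤ θ t := by exact_mod_cast hθ t h1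
    refine le_trans ?_ ((gamma_lower hγ t).trans h2)
    gcongr
    exact (min_le_left _ _).trans (min_le_right _ _)
  · have h2 : (ε : ℝ) < θ t := by exact_mod_cast h1
    have h3 : min (min (ε : ℝ) ((γ 1 : ℝ) / 2)) 1 ≤ ε := (min_le_left _ _).trans (min_le_left _ _)
    calc min (min (ε : ℝ) ((γ 1 : ℝ) / 2)) 1 * min (t : ℝ) 1 ≤ ε * 1 := by gcongr
      _ ≤ θ t := by linarith

/-- **MP_e93574_an, Q1**: a weakly contractive map from a complete metric space to its nonempty closed
bounded subsets has a fixed point. -/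
theorem result (X : Type*) [MetricSpace X] [CompleteSpace X] [Nonempty X] (T : X → Set X)
    (hne : ∀ x, (T x).Nonempty) (hcl : ∀ x, IsClosed (T x)) (hbd : ∀ x, Bornology.IsBounded (T x))
    (θ : ℝ≥0 → ℝ≥0) (hθ : ClassA θ)
    (hT : ∀ x y, Metric.hausdorffDist (T x) (T y) ≤ dist x y - θ (nndist x y)) :
    ∃ x, x ∈ T x := by
  by_contra hcon
  push Not at hcon
  obtain ⟨k, hk, hk1, hkθ⟩ := theta_lower hθ
  have hfin : ∀ x y, Metric.hausdorffEDist (T x) (T y) ≠ ⊤ := fun x y =>
    Metric.hausdorffEDist_ne_top_of_nonempty_of_bounded (hne x) (hne y) (hbd x) (hbd y)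
  have hH : ∀ x y, Metric.hausdorffDist (T x) (T y) ≤ dist x y - k * min (dist x y) 1 := by
    intro x y
    have := hkθ (nndist x y)
    rw [coe_nndist] at this
    linarith [hT x y]
  -- one step
  have hstep : ∀ p : X × X, p.2 ∈ T p.1 → ∃ z, z ∈ T p.2 ∧
      dist p.2 z ≤ dist p.1 p.2 - k / 2 * min (dist p.1 p.2) 1 := by
    rintro ⟨x, y⟩ hxy
    have hne' : x ≠ y := fun h => hcon x (by simpa [h] using hxy)
    have hd : 0 < dist x y := dist_pos.2 hne'
    have hmin : 0 < min (dist x y) 1 := lt_min hd one_pos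
    have hlt : Metric.hausdorffDist (T x) (T y) < dist x y - k / 2 * min (dist x y) 1 := by
      have := hH x y
      have : 0 < k / 2 * min (dist x y) 1 := by positivity
      linarith
    obtain ⟨z, hz, hz'⟩ := Metric.exists_dist_lt_of_hausdorffDist_lt hxy hlt (hfin x y)
    exact ⟨z, hz, hz'.le⟩
  choose! nxt hnxt using hstep
  obtain ⟨x0⟩ := ‹Nonempty X›
  obtain ⟨x1, hx1⟩ := hne x0
  let p : ℕ → X × X := fun n => Nat.rec (x0, x1) (fun _ q => (q.2, nxt q)) n
  have hp0 : p 0 = (x0, x1) := rfl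
  have hps : ∀ n, p (n + 1) = ((p n).2, nxt (p n)) := fun n => rfl
  have hmem : ∀ n, (p n).2 ∈ T (p n).1 := by
    intro n
    induction n with
    | zero => rw [hp0]; exact hx1
    | succ n ih => rw [hps]; exact (hnxt _ ih).1
  set e : ℕ → ℝ := fun n => dist (p n).1 (p n).2 with he
  have he0 : ∀ n, 0 ≤ e n := fun n => dist_nonneg
  have hes : ∀ n, e (n + 1) ≤ e n - k / 2 * min (e n) 1 := fun n => by
    have := (hnxt _ (hmem n)).2
    simpa [he, hps] using this
  have hmin0 : ∀ n, 0 ≤ min (e n) 1 := fun n => le_min (he0 n) zero_le_one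
  have hanti : ∀ n, e (n + 1) ≤ e n := fun n => by
    have h1 := hes n
    have : 0 ≤ k / 2 * min (e n) 1 := mul_nonneg (by positivity) (hmin0 n)
    linarith
  set M : ℝ := max (e 0) 1 with hM
  have hM1 : 1 ≤ M := le_max_right _ _
  have heM : ∀ n, e n ≤ M := by
    intro n
    induction n with
    | zero => exact le_max_left _ _
    | succ n ih => exact (hanti n).trans ih
  have hminM : ∀ n, e n / M ≤ min (e n) 1 := by
    intro n
    refine le_min ?_ ?_
    · exact div_le_self (he0 n) hM1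
    · rw [div_le_one (by linarith)]; exact heM n
  set r : ℝ := 1 - k / (2 * M) with hr
  have hr1 : r < 1 := by
    have : 0 < k / (2 * M) := by positivity
    linarith
  have hr0 : 0 ≤ r := by
    have : k / (2 * M) ≤ 1 := by
      rw [div_le_one (by positivity)]; linarith
    linarith
  have hgeo : ∀ n, e n ≤ e 0 * r ^ n := by
    intro n
    induction n with
    | zero => simp
    | succ n ih =>
      have h1 : e (n + 1) ≤ e n * r := by
        have h2 := hes n
        have h3 : k / 2 * (e n / M) ≤ k / 2 * min (e n) 1 := by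
          have := hminM n
          gcongr
        have h4 : e n * r = e n - k / 2 * (e n / M) := by
          rw [hr]; field_simp
        linarith
      calc e (n + 1) ≤ e n * r := h1
        _ ≤ (e 0 * r ^ n) * r := by gcongr
        _ = e 0 * r ^ (n + 1) := by ring
  have hcau : CauchySeq (fun n => (p n).1) := by
    refine cauchySeq_of_le_geometric r (e 0) hr1 fun n => ?_
    have : (p (n + 1)).1 = (p n).2 := by rw [hps]
    rw [this]
    exact hgeo n
  obtain ⟨x, hx⟩ := cauchySeq_tendsto_of_complete hcau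
  apply hcon x
  have hlim : Filter.Tendsto (fun n => dist (p n).1 x) Filter.atTop (nhds 0) :=
    tendsto_iff_dist_tendsto_zero.1 hx
  have hinf : Metric.infDist x (T x) ≤ 0 := by
    have hle : ∀ n, Metric.infDist x (T x) ≤ dist (p (n + 1)).1 x + dist (p n).1 x := by
      intro n
      have h1 : (p (n + 1)).1 ∈ T (p n).1 := by rw [hps]; exact hmem n
      have h2 : Metric.infDist (p (n + 1)).1 (T x) ≤ Metric.hausdorffDist (T (p n).1) (T x) :=
        Metric.infDist_le_hausdorffDist_of_mem h1 (hfin _ _)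
      have h3 : Metric.infDist x (T x) ≤ Metric.infDist (p (n + 1)).1 (T x) + dist x (p (n + 1)).1 :=
        Metric.infDist_le_infDist_add_dist
      have h4 := hH (p n).1 x
      have h5 : 0 ≤ k * min (dist (p n).1 x) 1 :=
        mul_nonneg hk.le (le_min dist_nonneg zero_le_one)
      rw [dist_comm x] at h3
      linarith
    have hl2 : Filter.Tendsto (fun n => dist (p (n + 1)).1 x + dist (p n).1 x) Filter.atTop
        (nhds (0 + 0)) := ((Filter.tendsto_add_atTop_iff_nat 1).2 hlim).add hlim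
    rw [add_zero] at hl2
    exact ge_of_tendsto' hl2 hle
  have hzero : Metric.infDist x (T x) = 0 := le_antisymm hinf Metric.infDist_nonneg
  rwa [(hcl x).mem_iff_infDist_zero (hne x)]

end Pool.Agent.Results.MP_e93574_an.FixedPoint
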